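import Pool.Agent.Lib_helper95.KV.Arb

/-!
# Arborescent links of plane trees with weights at least `3` and alternating signs: definitions
-/

set_option autoImplicit false

namespace Pool.Agent.TR9.KV

open Pool.Agent.KV

/-- The diagrams of plane forests with `n` trees and integer weights, which hang below a vertex of
weight `p`; all the weights are at least `3` in absolute value, and the weights at the two ends of
every edge have opposite signs (the edges which join the roots to the vertex above included). The
diagram consists of the tangles of its trees, each turned by a right angle, on top of each other. The
tangle of a tree with root of weight `a` is a twist region of `|a|` crossings followed by the tangle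
of the forest `F` of the subtrees of the root. -/
inductive Forest : ℤ → ℕ → List Piece → Prop
  | nil (p : ℤ) : Forest p 0 []
  | cons (p a : ℤ) (m n : ℕ) (F G : List Piece) : Forest a m F → Forest p n G → 3 ≤ |a| →
      p * a < 0 → Forest p (n + 1) (.cup 2 :: ((.twist 0 a :: F).map shift ++ .cap 0 :: G))

end Pool.Agent.TR9.KV
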