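import Pool.Agent.Lib_helper75.TR7.GeoE
import Pool.Agent.Lib_helper11.TR9.Def

/-!
# ALT3: the interface between the analysis and the geometry

Every vertex has a weight of absolute value at least `3`, the weights at the two ends of an edge have
opposite signs.
-/

set_option autoImplicit false

open Filter Topology

namespace Pool.Agent.TR9

open Pool.Agent.TB

/-- the rules for the vertices and the edges of a forest below a vertex of weight `p` -/
def Fiv : ℤ → Forest → Prop
  | _, .nil => True
  | p, .cons a F G => 3 ≤ |a| ∧ p * a < 0 ∧ Fiv a F ∧ Fiv p G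

/-- **(ASY)** -/
def AsyT : Prop := ∀ (a : ℤ) (F : Forest), F ≠ .nil → 3 ≤ |a| → Fiv a F →
  ∃ (w : ℂ) (L : Lab) (C : ℂ), C ≠ 0 ∧ Pool.Agent.TR7.CritRootE a F w L ∧
    Tendsto (fun N : ℕ => (N : ℂ) ^ (-3 / 2 : ℂ) * Complex.exp (-(N * actRoot a F w L)) *
      (om N a * M N a (RF N F))) atTop (𝓝 C)

end Pool.Agent.TR9
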