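import Pool.Agent.Lib_helper71.TR8.Asy
import Pool.Agent.Lib_helper81.TR8.E4
import Pool.Agent.Lib_helper11.TR9.D1

/-!
# ALT3: the asymptotics of an alternating plane tree from the tables
-/

set_option autoImplicit false

open Filter Topology MeasureTheory

namespace Pool.Agent.TR9

open Pool.Agent.TB hiding up
open Pool.Agent.TR5 (deg)
open Pool.Agent.TR5.Tre

/-- the rules at the vertices and at the edges of the graph of a forest -/
theorem fiv_edge : (F : Forest) → (p : ℤ) → Fiv p F → ∀ e : Ed F,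
    3 ≤ |wt F e| ∧ (Pool.Agent.TR5.Tre.up F e).elim p (wt F) * wt F e < 0
  | .cons a F G, p, h, e => by
    obtain ⟨h1, h2, h3, h4⟩ := h
    refine Ed.cases' (p := fun e => 3 ≤ |wt (.cons a F G) e| ∧
      (Pool.Agent.TR5.Tre.up (.cons a F G) e).elim p (wt (.cons a F G)) * wt (.cons a F G) e < 0)
      ?_ ?_ ?_ e
    · exact ⟨h1, h2⟩
    · intro e
      obtain ⟨k1, k2⟩ := fiv_edge F a h3 e
      refine ⟨k1, ?_⟩
      rw [up_sub]
      rcases hu : Pool.Agent.TR5.Tre.up F e with _ | e'
      · rw [hu] at k2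
        exact k2
      · rw [hu] at k2
        exact k2
    · intro e
      obtain ⟨k1, k2⟩ := fiv_edge G p h4 e
      refine ⟨k1, ?_⟩
      rw [up_oth]
      rcases hu : Pool.Agent.TR5.Tre.up G e with _ | e'
      · rw [hu] at k2
        exact k2
      · rw [hu] at k2
        exact k2

/-- **(ASY)** from the saddles, the tables of the edges and the limit theorem -/
theorem asyT (hT : TR8.T1S) (hX : TR8.XIS) (hJ : TR8.JS) (hM : TR8.MS) (hG : TR8.GrA) : AsyT := by
  intro a F hF ha hFiv
  obtain ⟨-, g2, g3⟩ := TR8.Tre.graph_hyp (F := F) hF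
  have w3 : ∀ r : Option (Ed F), 3 ≤ |wv a F r| := by
    intro r
    cases r with
    | none => exact ha
    | some e => exact (fiv_edge F a hFiv e).1
  have w4 : ∀ e : Ed F, wv a F (Pool.Agent.TR5.Tre.up F e) * wv a F (some e) < 0 := by
    intro e
    have h := (fiv_edge F a hFiv e).2
    rcases hu : Pool.Agent.TR5.Tre.up F e with _ | e'
    · rw [hu] at h
      exact h
    · rw [hu] at h
      exact h
  obtain ⟨v, x0, ds, dt, zs, zt, S, hE⟩ := TR8.t1A_alt hT hX hJ hM (Option (Ed F)) (Ed F)
    (Pool.Agent.TR5.Tre.up F) some (wv a F) g2 g3 w3 w4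
  exact TR8.asy_tree hG hF S hE

end Pool.Agent.TR9
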